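import Pool.Agent.W381.PG.GAUSS
import Pool.Agent.W619.Y.Stm9

set_option autoImplicit false
set_option linter.overlappingInstances false
set_option linter.unusedSectionVars false

open FF IntermediateField Pool.Agent.W619.PQ Pool.Agent.W619.PL Pool.Agent.W619.TW
  Pool.Agent.W603.LV Pool.Agent.W381.PG

namespace Pool.Agent.W881.PG.GAUSSB

section

variable {k L : Type*} [Field k] [Field L] [Algebra k L] [CharZero k] [IsAlgClosed k]
  {M F : IntermediateField k L} {n m : ℤ} {z w : L}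

theorem ge_log (u : Place k M) (D : Derivation k L L) {μ μ' : M} (hμ : Ge u n μ)
    (h1 : D (μ : L) = (μ' : L)) (h2 : u.Reg (μ' / μ)) : Ge u n μ' := by
  by_cases h0 : μ = 0
  · left
    apply Subtype.ext
    show (μ' : L) = 0
    rw [← h1, h0]
    show D ((0 : L)) = 0
    rw [map_zero]
  · by_cases h0' : μ' = 0
    · exact Or.inl h0'
    · right
      have h3 := hμ.resolve_left h0
      have h4 : 0 ≤ u.ord (μ' / μ) := by
        rcases h2 with h2 | h2
        · exact absurd h2 (div_ne_zero h0' h0)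
        · exact h2
      have h5 : u.ord μ' = u.ord (μ' / μ) + u.ord μ := by
        rw [← u.ord_mul (div_ne_zero h0' h0) h0, div_mul_cancel₀ _ h0]
      omega

theorem GG_der (u : Place k M) (D : Derivation k L L)
    (hM : ∀ μ : M, ∃ μ' : M, D (μ : L) = (μ' : L) ∧ u.Reg (μ' / μ))
    (hF : ∀ β : F, ∃ β' : F, D (β : L) = (β' : L)) (hz : z ∈ GG F u n) : D z ∈ GG F u n := by
  refine GG_ind (p := fun z => D z ∈ GG F u n) ?_ ?_ ?_ hz
  · rw [map_zero]; exact zero_mem _
  · intro x y hx hy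
    rw [map_add]; exact add_mem hx hy
  · intro β μ hμ
    obtain ⟨μ', h1, h2⟩ := hM μ
    obtain ⟨β', h3⟩ := hF β
    rw [D.leibniz, h1, h3, smul_eq_mul, smul_eq_mul]
    refine add_mem ?_ ?_
    · rw [mul_comm]
      exact GG_mul_F β (GG_M (ge_log u D hμ h1 h2))
    · exact GG_mul_F β' (GG_M hμ)

theorem reg_div_of {P : Place k L} {a : L} {c : ℤ} (h0 : a ≠ 0) (ha : P.ord a = c)
    (hw : Ge P c w) : P.Reg (w / a) := by
  by_cases h1 : w = 0
  · left
    rw [h1, zero_div]
  · right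
    have h2 := hw.resolve_left h1
    rw [div_eq_mul_inv, P.ord_mul h1 (inv_ne_zero h0), P.ord_inv]
    omega

theorem reg_sub {P : Place k L} {a b : L} (ha : P.Reg a) (hb : P.Reg b) : P.Reg (a - b) := by
  have h1 : Ge P 0 a := ha
  have h2 : Ge P 0 b := hb
  have h3 : Ge P 0 (-b) := by
    rcases h2 with h | h
    · left; rw [h, neg_zero]
    · right; rwa [P.ord_neg]
  have h4 := h1.add h3
  rw [← sub_eq_add_neg] at h4
  exact h4

theorem UU_log (h : Cur M F) (u : Place k M) (D : Derivation k L L)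
    (hM : ∀ μ : M, ∃ μ' : M, D (μ : L) = (μ' : L) ∧ u.Reg (μ' / μ))
    (hF : ∀ β : F, ∃ β' : F, D (β : L) = (β' : L)) (z : L) : (UU h u).Reg (D z / z) := by
  by_cases h0 : z = 0
  · left
    rw [h0, map_zero, zero_div]
  obtain ⟨n, hn⟩ := Or'.exists h u h0
  obtain ⟨a, b, p, q, ha, hb, rfl, rfl⟩ := hn
  have ha0 := ha.ne
  have hb0 := hb.ne
  have hDa := GG_UU h u (GG_der u D hM hF ha.1)
  have hDb := GG_UU h u (GG_der u D hM hF hb.1)
  have h1 := reg_div_of ha0 (od_eq h (ha.or h) : (UU h u).ord a = p) hDa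
  have h2 := reg_div_of hb0 (od_eq h (hb.or h) : (UU h u).ord b = q) hDb
  have e : D (a / b) / (a / b) = D a / a - D b / b := by
    rw [D.leibniz_div, smul_eq_mul, smul_eq_mul, smul_eq_mul]
    field_simp
  rw [e]
  exact reg_sub h1 h2

end

universe u v

theorem main : Pool.Agent.W619.Y.S_GAUSSB.{u, v} := by
  intro k L _ _ _ _ _ M F _ d hd hL hsup u
  have h := cur_of_trdeg (M := M) (F := F) d hd hL hsup
  exact ⟨UU h u, UU_M h u, UU_F h u, fun r β μ c hβ hc => UU_fam h u r β μ c hβ hc,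
    UU_div h u d hd, fun D hM hF => UU_pres h u D hM hF, fun D hM hF => UU_log h u D hM hF⟩

end Pool.Agent.W881.PG.GAUSSB
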